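import Pool.Agent.Q170.F3.Disc

/-!
# The functional, and its bound on discs
-/

set_option autoImplicit false

open MeasureTheory Set Filter Topology
open Pool.Agent.Q170.Horn (gradSq mu gradSq_cont)

namespace Pool.Agent.Q170.F3

/-- The polar dual. -/
def polar (Ω : Set (ℝ × ℝ)) : Set (ℝ × ℝ) := {x | ∀ y ∈ closure Ω, x.1 * y.1 + x.2 * y.2 < 1}

/-- The area. -/
noncomputable def area (D : Set (ℝ × ℝ)) : ℝ := (volume D).toReal

/-- The centroid. -/
noncomputable def centroid (D : Set (ℝ × ℝ)) : ℝ × ℝ :=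
  ((∫ p in D, p.1) / area D, (∫ p in D, p.2) / area D)

/-- The second moment about the centroid. -/
noncomputable def inertia (D : Set (ℝ × ℝ)) : ℝ :=
  ∫ p in D, ((p.1 - (centroid D).1) ^ 2 + (p.2 - (centroid D).2) ^ 2)

/-- The functional `F_n` in dimension two. The Neumann eigenvalue `μ_j` of the problem is
`mu (j - 1)`. -/
noncomputable def F (n : ℕ) (Ω : Set (ℝ × ℝ)) : ℝ :=
  (∑ j ∈ Finset.Icc 2 n, mu (j - 1) Ω) * area Ω * (area (polar Ω) ^ 2 / inertia (polar Ω))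

theorem F_three (Ω : Set (ℝ × ℝ)) :
    F 3 Ω = (mu 1 Ω + mu 2 Ω) * area Ω * (area (polar Ω) ^ 2 / inertia (polar Ω)) := by
  unfold F
  have : Finset.Icc 2 3 = {2, 3} := by decide
  rw [this, Finset.sum_pair (by norm_num)]

theorem polar_open {Ω : Set (ℝ × ℝ)} (hb : Bornology.IsBounded Ω) : IsOpen (polar Ω) := by
  have hK : IsCompact (closure Ω) := Metric.isCompact_of_isClosed_isBounded isClosed_closure
    hb.closure
  rw [isOpen_iff_mem_nhds]
  intro x hx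
  apply hK.eventually_forall_of_forall_eventually
  intro y hy
  have hc : ContinuousAt (fun z : (ℝ × ℝ) × (ℝ × ℝ) => z.1.1 * z.2.1 + z.1.2 * z.2.2) (x, y) := by
    fun_prop
  exact hc.eventually_lt_const (hx y hy)

theorem area_disc (c : ℝ × ℝ) {R : ℝ} (hR : 0 < R) : area (disc c R) = Real.pi * R ^ 2 := by
  have h := test_sq c hR 1 0 0
  simp only [zero_mul, add_zero, one_pow, mul_one, ne_eq, OfNat.ofNat_ne_zero,
    not_false_eq_true, zero_pow, mul_zero] at h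
  rw [setIntegral_const] at h
  simpa [area, measureReal_def] using h

theorem volume_disc_lt (c : ℝ × ℝ) {R : ℝ} (hR : 0 ≤ R) : volume (disc c R) < ⊤ :=
  (measure_mono (disc_sub c hR)).trans_lt (isCompact_Icc.prod isCompact_Icc).measure_lt_top

/-- The radial integral used in the bathtub argument. -/
theorem disc_h (c : ℝ × ℝ) {ρ : ℝ} (hρ : 0 ≤ ρ) :
    ∫ p in disc c ρ, ((p.1 - c.1) ^ 2 + (p.2 - c.2) ^ 2 - ρ ^ 2) = - (Real.pi * ρ ^ 4 / 2) := by
  rw [disc_polar hρ (F := fun p => ((p.1 - c.1) ^ 2 + (p.2 - c.2) ^ 2 - ρ ^ 2)) (by fun_prop)]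
  simp only
  have h1 : ∀ r : ℝ, ∫ θ in (-Real.pi)..Real.pi, r * ((c.1 + r * Real.cos θ - c.1) ^ 2 +
      (c.2 + r * Real.sin θ - c.2) ^ 2 - ρ ^ 2) = (-(2 * Real.pi * ρ ^ 2)) * r +
      (2 * Real.pi) * r ^ 3 + 0 * r ^ 5 + 0 * r ^ 7 := by
    intro r
    have : ∀ θ : ℝ, r * ((c.1 + r * Real.cos θ - c.1) ^ 2 +
      (c.2 + r * Real.sin θ - c.2) ^ 2 - ρ ^ 2) = r ^ 3 - r * ρ ^ 2 := by
      intro θ
      have e : (c.1 + r * Real.cos θ - c.1) ^ 2 + (c.2 + r * Real.sin θ - c.2) ^ 2 =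
        r ^ 2 * (Real.sin θ ^ 2 + Real.cos θ ^ 2) := by ring
      rw [e, Real.sin_sq_add_cos_sq]; ring
    simp only [this]
    rw [intervalIntegral.integral_const, smul_eq_mul]
    ring
  simp only [h1]
  rw [rad]
  ring

theorem bathtub_aux {D : Set (ℝ × ℝ)} (hD : MeasurableSet D) (hfin : volume D < ⊤) (c : ℝ × ℝ)
    (hi : IntegrableOn (fun p : ℝ × ℝ => (p.1 - c.1) ^ 2 + (p.2 - c.2) ^ 2) D) :
    area D ^ 2 / (2 * Real.pi) ≤ ∫ p in D, ((p.1 - c.1) ^ 2 + (p.2 - c.2) ^ 2) := by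
  have hpi := Real.pi_pos
  have hA : 0 ≤ area D := ENNReal.toReal_nonneg
  obtain ⟨ρ, hρ, hρ2⟩ : ∃ ρ : ℝ, 0 ≤ ρ ∧ ρ ^ 2 = area D / Real.pi :=
    ⟨√(area D / Real.pi), Real.sqrt_nonneg _, Real.sq_sqrt (by positivity)⟩
  have hc : IntegrableOn (fun _ : ℝ × ℝ => ρ ^ 2) D :=
    integrableOn_const hfin.ne
  have hih : IntegrableOn (fun p : ℝ × ℝ => (p.1 - c.1) ^ 2 + (p.2 - c.2) ^ 2 - ρ ^ 2) D :=
    hi.sub hc
  have h1 : ∫ p in D, ((p.1 - c.1) ^ 2 + (p.2 - c.2) ^ 2 - ρ ^ 2) =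
      (∫ p in D, ((p.1 - c.1) ^ 2 + (p.2 - c.2) ^ 2)) - ρ ^ 2 * area D := by
    rw [integral_sub hi hc, setIntegral_const, smul_eq_mul, measureReal_def]
    unfold area
    ring
  have h2 : ∫ p in disc c ρ, ((p.1 - c.1) ^ 2 + (p.2 - c.2) ^ 2 - ρ ^ 2) ≤
      ∫ p in D, ((p.1 - c.1) ^ 2 + (p.2 - c.2) ^ 2 - ρ ^ 2) := by
    rw [← integral_indicator (disc_open c ρ).measurableSet, ← integral_indicator hD]
    apply integral_mono
    · exact (integrable_indicator_iff (disc_open c ρ).measurableSet).2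
        (disc_int hρ (by fun_prop))
    · exact (integrable_indicator_iff hD).2 hih
    · intro p
      simp only
      by_cases hp : p ∈ disc c ρ
      · rw [indicator_of_mem hp]
        have hp' : (p.1 - c.1) ^ 2 + (p.2 - c.2) ^ 2 < ρ ^ 2 := hp
        by_cases hq : p ∈ D
        · rw [indicator_of_mem hq]
        · rw [indicator_of_notMem hq]
          linarith
      · rw [indicator_of_notMem hp]
        have hp' : ρ ^ 2 ≤ (p.1 - c.1) ^ 2 + (p.2 - c.2) ^ 2 := not_lt.1 hp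
        by_cases hq : p ∈ D
        · rw [indicator_of_mem hq]
          linarith
        · rw [indicator_of_notMem hq]
  rw [disc_h c hρ, h1] at h2
  have h3 : ρ ^ 4 = (area D / Real.pi) ^ 2 := by rw [← hρ2]; ring
  rw [h3, hρ2] at h2
  have h4 : Real.pi * (area D / Real.pi) ^ 2 / 2 = area D ^ 2 / (2 * Real.pi) := by
    field_simp
  have h5 : area D / Real.pi * area D = 2 * (area D ^ 2 / (2 * Real.pi)) := by
    field_simp
  rw [h4, h5] at h2
  linarith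

theorem bathtub {D : Set (ℝ × ℝ)} (hD : MeasurableSet D) :
    area D ^ 2 / inertia D ≤ 2 * Real.pi := by
  have hpi := Real.pi_pos
  by_cases hfin : volume D < ⊤
  · by_cases hi : IntegrableOn (fun p : ℝ × ℝ => (p.1 - (centroid D).1) ^ 2 +
        (p.2 - (centroid D).2) ^ 2) D
    · have h := bathtub_aux hD hfin (centroid D) hi
      change area D ^ 2 / (2 * Real.pi) ≤ inertia D at h
      have h0 : 0 ≤ inertia D := integral_nonneg fun p => by positivity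
      rcases h0.eq_or_lt with h0 | h0
      · rw [← h0, div_zero]; positivity
      · rw [div_le_iff₀ h0]
        rw [div_le_iff₀ (by positivity)] at h
        linarith
    · have : inertia D = 0 := integral_undef hi
      rw [this, div_zero]; positivity
  · have : area D = 0 := by
      unfold area
      have : volume D = ⊤ := not_lt_top_iff.1 hfin
      rw [this]; rfl
    rw [this]
    simp
    positivity

theorem bdd_mu (k : ℕ) (Ω : Set (ℝ × ℝ)) : BddBelow {Λ : ℝ | ∃ f : Fin (k + 1) → ℝ × ℝ → ℝ,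
    (∀ i, ContDiff ℝ 1 (f i)) ∧
    (∀ t : Fin (k + 1) → ℝ, t ≠ 0 → 0 < ∫ p in Ω, (∑ i, t i * f i p) ^ 2) ∧
    ∀ t : Fin (k + 1) → ℝ, ∫ p in Ω, gradSq (fun q => ∑ i, t i * f i q) p ≤
      Λ * ∫ p in Ω, (∑ i, t i * f i p) ^ 2} := by
  refine ⟨0, ?_⟩
  rintro Λ ⟨f, -, h2, h3⟩
  have h1 := h2 (fun _ => 1) (fun h => by have := congrFun h 0; simp at this)
  have h4 := h3 (fun _ => 1)
  have h5 : 0 ≤ ∫ p in Ω, gradSq (fun q => ∑ i, (1:ℝ) * f i q) p :=
    integral_nonneg fun p => by unfold gradSq; positivity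
  by_contra hcon
  push Not at hcon
  nlinarith

theorem cd_test (c : ℝ × ℝ) (R s t : ℝ) : ContDiff ℝ 1 (fun p : ℝ × ℝ =>
    (s * (p.1 - c.1) + t * (p.2 - c.2)) *
      (1 - ((p.1 - c.1) ^ 2 + (p.2 - c.2) ^ 2) / (3 * R ^ 2))) := by
  have h1 : ContDiff ℝ 1 (fun p : ℝ × ℝ => p.1 - c.1) := contDiff_fst.sub contDiff_const
  have h2 : ContDiff ℝ 1 (fun p : ℝ × ℝ => p.2 - c.2) := contDiff_snd.sub contDiff_const
  exact ((contDiff_const.mul h1).add (contDiff_const.mul h2)).mul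
    (contDiff_const.sub (((h1.pow 2).add (h2.pow 2)).div_const _))

theorem pos_aux {R : ℝ} (hR : 0 < R) {t0 s t : ℝ} (h : ¬ (t0 = 0 ∧ s = 0 ∧ t = 0)) :
    0 < Real.pi * R ^ 2 * t0 ^ 2 + 11 / 72 * Real.pi * R ^ 4 * (s ^ 2 + t ^ 2) := by
  have hpi := Real.pi_pos
  have h1 : 0 < Real.pi * R ^ 2 := by positivity
  have h2 : 0 < 11 / 72 * Real.pi * R ^ 4 := by positivity
  by_cases h0 : t0 = 0
  · have h3 : 0 < s ^ 2 + t ^ 2 := by
      by_contra hcon
      push Not at hcon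
      apply h
      exact ⟨h0, by nlinarith [sq_nonneg s, sq_nonneg t], by nlinarith [sq_nonneg s, sq_nonneg t]⟩
    positivity
  · have h3 : 0 < t0 ^ 2 := by positivity
    have h4 : 0 ≤ s ^ 2 + t ^ 2 := by positivity
    have := mul_pos h1 h3
    have := mul_nonneg h2.le h4
    linarith

theorem ray_aux {R : ℝ} (hR : 0 < R) (t0 s t : ℝ) :
    14 / 27 * Real.pi * R ^ 2 * (s ^ 2 + t ^ 2) ≤ 112 / 33 / R ^ 2 *
      (Real.pi * R ^ 2 * t0 ^ 2 + 11 / 72 * Real.pi * R ^ 4 * (s ^ 2 + t ^ 2)) := by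
  have hpi := Real.pi_pos
  have e : 112 / 33 / R ^ 2 * (Real.pi * R ^ 2 * t0 ^ 2 + 11 / 72 * Real.pi * R ^ 4 *
      (s ^ 2 + t ^ 2)) = 112 / 33 * Real.pi * t0 ^ 2 + 14 / 27 * Real.pi * R ^ 2 *
      (s ^ 2 + t ^ 2) := by
    field_simp
    ring
  rw [e]
  have : 0 ≤ 112 / 33 * Real.pi * t0 ^ 2 := by positivity
  linarith

theorem mu1_disc (c : ℝ × ℝ) {R : ℝ} (hR : 0 < R) : mu 1 (disc c R) ≤ 112 / 33 / R ^ 2 := by
  apply csInf_le (bdd_mu 1 _)
  have e : ∀ (t : Fin 2 → ℝ) (p : ℝ × ℝ), ∑ i : Fin 2, t i * (![fun _ => 1,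
      fun p => (1 * (p.1 - c.1) + 0 * (p.2 - c.2)) *
      (1 - ((p.1 - c.1) ^ 2 + (p.2 - c.2) ^ 2) / (3 * R ^ 2))] :
        Fin 2 → ℝ × ℝ → ℝ) i p = t 0 + (t 1 * (p.1 - c.1) + 0 * (p.2 - c.2)) *
      (1 - ((p.1 - c.1) ^ 2 + (p.2 - c.2) ^ 2) / (3 * R ^ 2)) := by
    intro t p
    simp [Fin.sum_univ_two]
    ring
  refine ⟨fun i => ![fun _ => 1, fun p => (1 * (p.1 - c.1) + 0 * (p.2 - c.2)) *
      (1 - ((p.1 - c.1) ^ 2 + (p.2 - c.2) ^ 2) / (3 * R ^ 2))] i, ?_, fun t ht => ?_,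
      fun t => ?_⟩
  · intro i
    fin_cases i
    · exact contDiff_const
    · exact cd_test c R 1 0
  · simp only [e]
    rw [test_sq c hR]
    apply pos_aux hR
    rintro ⟨h0, h1, -⟩
    apply ht
    ext i; fin_cases i <;> simp [h0, h1]
  · simp only [e]
    rw [test_sq c hR, test_grad c hR]
    exact ray_aux hR _ _ _

theorem mu2_disc (c : ℝ × ℝ) {R : ℝ} (hR : 0 < R) : mu 2 (disc c R) ≤ 112 / 33 / R ^ 2 := by
  apply csInf_le (bdd_mu 2 _)
  have e : ∀ (t : Fin 3 → ℝ) (p : ℝ × ℝ), ∑ i : Fin 3, t i * (![fun _ => 1,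
      fun p => (1 * (p.1 - c.1) + 0 * (p.2 - c.2)) *
      (1 - ((p.1 - c.1) ^ 2 + (p.2 - c.2) ^ 2) / (3 * R ^ 2)),
      fun p => (0 * (p.1 - c.1) + 1 * (p.2 - c.2)) *
      (1 - ((p.1 - c.1) ^ 2 + (p.2 - c.2) ^ 2) / (3 * R ^ 2))] :
        Fin 3 → ℝ × ℝ → ℝ) i p = t 0 + (t 1 * (p.1 - c.1) + t 2 * (p.2 - c.2)) *
      (1 - ((p.1 - c.1) ^ 2 + (p.2 - c.2) ^ 2) / (3 * R ^ 2)) := by
    intro t p
    simp [Fin.sum_univ_three]
    ring
  refine ⟨fun i => ![fun _ => 1, fun p => (1 * (p.1 - c.1) + 0 * (p.2 - c.2)) *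
      (1 - ((p.1 - c.1) ^ 2 + (p.2 - c.2) ^ 2) / (3 * R ^ 2)),
      fun p => (0 * (p.1 - c.1) + 1 * (p.2 - c.2)) *
      (1 - ((p.1 - c.1) ^ 2 + (p.2 - c.2) ^ 2) / (3 * R ^ 2))] i, ?_, fun t ht => ?_,
      fun t => ?_⟩
  · intro i
    fin_cases i
    · exact contDiff_const
    · exact cd_test c R 1 0
    · exact cd_test c R 0 1
  · simp only [e]
    rw [test_sq c hR]
    apply pos_aux hR
    rintro ⟨h0, h1, h2⟩
    apply ht
    ext i; fin_cases i <;> simp [h0, h1, h2]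
  · simp only [e]
    rw [test_sq c hR, test_grad c hR]
    exact ray_aux hR _ _ _

theorem F_disc (c : ℝ × ℝ) {R : ℝ} (hR : 0 < R) : F 3 (disc c R) ≤ 448 / 33 * Real.pi ^ 2 := by
  have hpi := Real.pi_pos
  rw [F_three, area_disc c hR]
  have hb : Bornology.IsBounded (disc c R) :=
    (isCompact_Icc.prod isCompact_Icc).isBounded.subset (disc_sub c hR.le)
  have h1 := bathtub (polar_open hb).measurableSet
  have h2 := mu1_disc c hR
  have h3 := mu2_disc c hR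
  have h0 : 0 ≤ inertia (polar (disc c R)) := integral_nonneg fun p => by positivity
  have h4 : 0 ≤ area (polar (disc c R)) ^ 2 / inertia (polar (disc c R)) :=
    div_nonneg (sq_nonneg _) h0
  calc (mu 1 (disc c R) + mu 2 (disc c R)) * (Real.pi * R ^ 2) *
        (area (polar (disc c R)) ^ 2 / inertia (polar (disc c R)))
      ≤ (2 * (112 / 33 / R ^ 2)) * (Real.pi * R ^ 2) *
        (area (polar (disc c R)) ^ 2 / inertia (polar (disc c R))) := by
        apply mul_le_mul_of_nonneg_right _ h4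
        apply mul_le_mul_of_nonneg_right _ (by positivity)
        linarith
    _ ≤ (2 * (112 / 33 / R ^ 2)) * (Real.pi * R ^ 2) * (2 * Real.pi) :=
        mul_le_mul_of_nonneg_left h1 (by positivity)
    _ = 448 / 33 * Real.pi ^ 2 := by
        field_simp
        ring

end Pool.Agent.Q170.F3
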