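import Pool.Agent.Q170.F3.Neu2

/-!
# Discs: polar coordinates, an upper bound for two Neumann eigenvalues, and the bathtub bound
-/

set_option autoImplicit false

open MeasureTheory Set
open Pool.Agent.Q170.Horn (gradSq mu gradSq_cont)

namespace Pool.Agent.Q170.F3

/-- The open disc. -/
def disc (c : ℝ × ℝ) (R : ℝ) : Set (ℝ × ℝ) := {p | (p.1 - c.1) ^ 2 + (p.2 - c.2) ^ 2 < R ^ 2}

theorem disc_open (c : ℝ × ℝ) (R : ℝ) : IsOpen (disc c R) :=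
  isOpen_lt (by fun_prop) (by fun_prop)

theorem disc_sub (c : ℝ × ℝ) {R : ℝ} (hR : 0 ≤ R) :
    disc c R ⊆ Icc (c.1 - R) (c.1 + R) ×ˢ Icc (c.2 - R) (c.2 + R) := by
  intro p hp
  have hp : (p.1 - c.1) ^ 2 + (p.2 - c.2) ^ 2 < R ^ 2 := hp
  have h1 : |p.1 - c.1| ≤ R := abs_le_of_sq_le_sq (by nlinarith [sq_nonneg (p.2 - c.2)]) hR
  have h2 : |p.2 - c.2| ≤ R := abs_le_of_sq_le_sq (by nlinarith [sq_nonneg (p.1 - c.1)]) hR
  have h1 := abs_le.1 h1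
  have h2 := abs_le.1 h2
  exact ⟨⟨by linarith [h1.1], by linarith [h1.2]⟩, ⟨by linarith [h2.1], by linarith [h2.2]⟩⟩

theorem disc_int {c : ℝ × ℝ} {R : ℝ} (hR : 0 ≤ R) {F : ℝ × ℝ → ℝ} (hF : Continuous F) :
    IntegrableOn F (disc c R) :=
  (hF.continuousOn.integrableOn_compact (isCompact_Icc.prod isCompact_Icc)).mono_set
    (disc_sub c hR)

theorem disc_polar {c : ℝ × ℝ} {R : ℝ} (hR : 0 ≤ R) {F : ℝ × ℝ → ℝ} (hF : Continuous F) :
    ∫ p in disc c R, F p = ∫ r in (0:ℝ)..R, ∫ θ in (-Real.pi)..Real.pi,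
      r * F (c.1 + r * Real.cos θ, c.2 + r * Real.sin θ) := by
  have hpi := Real.pi_pos
  have h1 : ∫ p in disc c R, F p = ∫ p, (disc c R).indicator F p :=
    (integral_indicator (disc_open c R).measurableSet).symm
  have h2 : ∫ p, (disc c R).indicator F p = ∫ p, (disc c R).indicator F (c + p) :=
    (integral_add_left_eq_self _ c).symm
  rw [h1, h2, ← integral_comp_polarCoord_symm]
  have ht : polarCoord.target = Ioi (0 : ℝ) ×ˢ Ioo (-Real.pi) Real.pi := rfl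
  have hcont : Continuous (fun p : ℝ × ℝ => p.1 * F (c.1 + p.1 * Real.cos p.2,
      c.2 + p.1 * Real.sin p.2)) := by fun_prop
  have h3 : ∫ p in polarCoord.target, p.1 • (disc c R).indicator F (c + polarCoord.symm p) =
      ∫ p in Ioo (0:ℝ) R ×ˢ Ioo (-Real.pi) Real.pi, p.1 * F (c.1 + p.1 * Real.cos p.2,
      c.2 + p.1 * Real.sin p.2) := by
    rw [← integral_indicator polarCoord.open_target.measurableSet,
      ← integral_indicator (measurableSet_Ioo.prod measurableSet_Ioo)]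
    congr 1
    funext p
    by_cases hp : p ∈ Ioo (0:ℝ) R ×ˢ Ioo (-Real.pi) Real.pi
    · have hpt : p ∈ polarCoord.target := by
        rw [ht]; exact ⟨hp.1.1, hp.2⟩
      rw [indicator_of_mem hp, indicator_of_mem hpt, indicator_of_mem, smul_eq_mul]
      · rfl
      · change (c.1 + p.1 * Real.cos p.2 - c.1) ^ 2 + (c.2 + p.1 * Real.sin p.2 - c.2) ^ 2 < R ^ 2
        have e : (c.1 + p.1 * Real.cos p.2 - c.1) ^ 2 + (c.2 + p.1 * Real.sin p.2 - c.2) ^ 2 =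
            p.1 ^ 2 * (Real.sin p.2 ^ 2 + Real.cos p.2 ^ 2) := by ring
        rw [e, Real.sin_sq_add_cos_sq, mul_one]
        have h1 : 0 < p.1 := hp.1.1
        have h2 : p.1 < R := hp.1.2
        nlinarith
    · rw [indicator_of_notMem hp]
      by_cases hpt : p ∈ polarCoord.target
      · rw [indicator_of_mem hpt, indicator_of_notMem, smul_zero]
        intro hd
        apply hp
        rw [ht] at hpt
        have hd : (c.1 + p.1 * Real.cos p.2 - c.1) ^ 2 + (c.2 + p.1 * Real.sin p.2 - c.2) ^ 2 <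
          R ^ 2 := hd
        have e : (c.1 + p.1 * Real.cos p.2 - c.1) ^ 2 + (c.2 + p.1 * Real.sin p.2 - c.2) ^ 2 =
            p.1 ^ 2 * (Real.sin p.2 ^ 2 + Real.cos p.2 ^ 2) := by ring
        rw [e, Real.sin_sq_add_cos_sq, mul_one] at hd
        exact ⟨⟨hpt.1, lt_of_pow_lt_pow_left₀ 2 hR hd⟩, hpt.2⟩
      · rw [indicator_of_notMem hpt]
  rw [h3, rect_int hcont hR (by linarith)]

theorem ang (A B C s t : ℝ) : ∫ θ in (-Real.pi)..Real.pi,
    (A + B * (s * Real.cos θ + t * Real.sin θ) + C * (s * Real.cos θ + t * Real.sin θ) ^ 2) =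
    2 * Real.pi * A + Real.pi * C * (s ^ 2 + t ^ 2) := by
  have hd : ∀ θ ∈ uIcc (-Real.pi) Real.pi, HasDerivAt (fun θ : ℝ => A * θ +
      B * (s * Real.sin θ - t * Real.cos θ) + C * (s ^ 2 * (θ / 2 + Real.sin θ * Real.cos θ / 2) +
        s * t * Real.sin θ ^ 2 + t ^ 2 * (θ / 2 - Real.sin θ * Real.cos θ / 2)))
      (A + B * (s * Real.cos θ + t * Real.sin θ) + C * (s * Real.cos θ + t * Real.sin θ) ^ 2)
      θ := by
    intro θ _
    have hs := Real.hasDerivAt_sin θ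
    have hc := Real.hasDerivAt_cos θ
    have hi := hasDerivAt_id θ
    have h1 := ((hi.const_mul A).add (((hs.const_mul s).sub (hc.const_mul t)).const_mul B)).add
      (((((hi.div_const 2).add ((hs.mul hc).div_const 2)).const_mul (s ^ 2)).add
        ((hs.pow 2).const_mul (s * t)) |>.add
        (((hi.div_const 2).sub ((hs.mul hc).div_const 2)).const_mul (t ^ 2))).const_mul C)
    refine h1.congr_deriv ?_
    have h2 : Real.sin θ ^ 2 = 1 - Real.cos θ ^ 2 := by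
      have := Real.sin_sq_add_cos_sq θ; linarith
    rw [show (2 - 1 : ℕ) = 1 from rfl, pow_one]
    push_cast
    linear_combination (-(C * s ^ 2 / 2 + C * t ^ 2 / 2)) * h2
  rw [intervalIntegral.integral_eq_sub_of_hasDerivAt hd
    (Continuous.intervalIntegrable (by fun_prop) _ _)]
  simp
  ring

theorem rad (a b d e R : ℝ) : ∫ r in (0:ℝ)..R, (a * r + b * r ^ 3 + d * r ^ 5 + e * r ^ 7) =
    a * R ^ 2 / 2 + b * R ^ 4 / 4 + d * R ^ 6 / 6 + e * R ^ 8 / 8 := by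
  have hd : ∀ r ∈ uIcc (0:ℝ) R, HasDerivAt (fun r : ℝ => a * r ^ 2 / 2 + b * r ^ 4 / 4 +
      d * r ^ 6 / 6 + e * r ^ 8 / 8) (a * r + b * r ^ 3 + d * r ^ 5 + e * r ^ 7) r := by
    intro r _
    have hi := hasDerivAt_id r
    have h1 := ((((hi.pow 2).const_mul a).div_const 2).add (((hi.pow 4).const_mul b).div_const 4)
      |>.add (((hi.pow 6).const_mul d).div_const 6)).add (((hi.pow 8).const_mul e).div_const 8)
    refine h1.congr_deriv ?_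
    simp
    ring
  rw [intervalIntegral.integral_eq_sub_of_hasDerivAt hd
    (Continuous.intervalIntegrable (by fun_prop) _ _)]
  simp

/-- The test functions. -/
theorem test_sq (c : ℝ × ℝ) {R : ℝ} (hR : 0 < R) (t0 s t : ℝ) :
    ∫ p in disc c R, (t0 + (s * (p.1 - c.1) + t * (p.2 - c.2)) *
      (1 - ((p.1 - c.1) ^ 2 + (p.2 - c.2) ^ 2) / (3 * R ^ 2))) ^ 2 =
    Real.pi * R ^ 2 * t0 ^ 2 + 11 / 72 * Real.pi * R ^ 4 * (s ^ 2 + t ^ 2) := by
  rw [disc_polar hR.le (F := fun p => (t0 + (s * (p.1 - c.1) + t * (p.2 - c.2)) *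
      (1 - ((p.1 - c.1) ^ 2 + (p.2 - c.2) ^ 2) / (3 * R ^ 2))) ^ 2) (by fun_prop)]
  simp only
  have h1 : ∀ r : ℝ, ∫ θ in (-Real.pi)..Real.pi, r * (t0 + (s * (c.1 + r * Real.cos θ - c.1) +
      t * (c.2 + r * Real.sin θ - c.2)) * (1 - ((c.1 + r * Real.cos θ - c.1) ^ 2 +
      (c.2 + r * Real.sin θ - c.2) ^ 2) / (3 * R ^ 2))) ^ 2 =
      2 * Real.pi * (r * t0 ^ 2) + Real.pi * (r ^ 3 * (1 - r ^ 2 / (3 * R ^ 2)) ^ 2) *
        (s ^ 2 + t ^ 2) := by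
    intro r
    rw [← ang (r * t0 ^ 2) (2 * r ^ 2 * t0 * (1 - r ^ 2 / (3 * R ^ 2)))
      (r ^ 3 * (1 - r ^ 2 / (3 * R ^ 2)) ^ 2) s t]
    apply intervalIntegral.integral_congr
    intro θ _
    simp only
    have e : (c.1 + r * Real.cos θ - c.1) ^ 2 + (c.2 + r * Real.sin θ - c.2) ^ 2 =
        r ^ 2 * (Real.sin θ ^ 2 + Real.cos θ ^ 2) := by ring
    rw [e, Real.sin_sq_add_cos_sq]
    ring
  simp only [h1]
  have h2 : ∀ r : ℝ, 2 * Real.pi * (r * t0 ^ 2) + Real.pi * (r ^ 3 *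
      (1 - r ^ 2 / (3 * R ^ 2)) ^ 2) * (s ^ 2 + t ^ 2) = (2 * Real.pi * t0 ^ 2) * r +
      (Real.pi * (s ^ 2 + t ^ 2)) * r ^ 3 + (-(2 / (3 * R ^ 2)) * Real.pi * (s ^ 2 + t ^ 2)) *
      r ^ 5 + (1 / (9 * R ^ 4) * Real.pi * (s ^ 2 + t ^ 2)) * r ^ 7 := by
    intro r
    field_simp
    ring
  simp only [h2]
  rw [rad]
  field_simp
  ring

theorem test_grad (c : ℝ × ℝ) {R : ℝ} (hR : 0 < R) (t0 s t : ℝ) :
    ∫ p in disc c R, gradSq (fun q => t0 + (s * (q.1 - c.1) + t * (q.2 - c.2)) *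
      (1 - ((q.1 - c.1) ^ 2 + (q.2 - c.2) ^ 2) / (3 * R ^ 2))) p =
    14 / 27 * Real.pi * R ^ 2 * (s ^ 2 + t ^ 2) := by
  have h0 : ∀ p : ℝ × ℝ, gradSq (fun q : ℝ × ℝ => t0 + (s * (q.1 - c.1) + t * (q.2 - c.2)) *
      (1 - ((q.1 - c.1) ^ 2 + (q.2 - c.2) ^ 2) / (3 * R ^ 2))) p =
      (s * (1 - ((p.1 - c.1) ^ 2 + (p.2 - c.2) ^ 2) / (3 * R ^ 2)) +
        (s * (p.1 - c.1) + t * (p.2 - c.2)) * (-(2 * (p.1 - c.1) / (3 * R ^ 2)))) ^ 2 +
      (t * (1 - ((p.1 - c.1) ^ 2 + (p.2 - c.2) ^ 2) / (3 * R ^ 2)) +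
        (s * (p.1 - c.1) + t * (p.2 - c.2)) * (-(2 * (p.2 - c.2) / (3 * R ^ 2)))) ^ 2 := by
    intro p
    apply gradSq_of
    · fun_prop
    · have hi := (hasDerivAt_id p.1).sub_const c.1
      have h1 := ((hi.const_mul s).add_const (t * (p.2 - c.2))).mul
        ((((hi.pow 2).add_const ((p.2 - c.2) ^ 2)).div_const (3 * R ^ 2)).const_sub 1)
        |>.const_add t0
      refine h1.congr_deriv ?_
      simp
    · have hi := (hasDerivAt_id p.2).sub_const c.2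
      have h1 := ((hi.const_mul t).const_add (s * (p.1 - c.1))).mul
        ((((hi.pow 2).const_add ((p.1 - c.1) ^ 2)).div_const (3 * R ^ 2)).const_sub 1)
        |>.const_add t0
      refine h1.congr_deriv ?_
      simp
  simp only [h0]
  rw [disc_polar hR.le (F := fun p =>
      (s * (1 - ((p.1 - c.1) ^ 2 + (p.2 - c.2) ^ 2) / (3 * R ^ 2)) +
        (s * (p.1 - c.1) + t * (p.2 - c.2)) * (-(2 * (p.1 - c.1) / (3 * R ^ 2)))) ^ 2 +
      (t * (1 - ((p.1 - c.1) ^ 2 + (p.2 - c.2) ^ 2) / (3 * R ^ 2)) +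
        (s * (p.1 - c.1) + t * (p.2 - c.2)) * (-(2 * (p.2 - c.2) / (3 * R ^ 2)))) ^ 2)
      (by fun_prop)]
  simp only
  have h1 : ∀ r : ℝ, ∫ θ in (-Real.pi)..Real.pi, r *
      ((s * (1 - ((c.1 + r * Real.cos θ - c.1) ^ 2 + (c.2 + r * Real.sin θ - c.2) ^ 2) /
        (3 * R ^ 2)) + (s * (c.1 + r * Real.cos θ - c.1) + t * (c.2 + r * Real.sin θ - c.2)) *
        (-(2 * (c.1 + r * Real.cos θ - c.1) / (3 * R ^ 2)))) ^ 2 +
      (t * (1 - ((c.1 + r * Real.cos θ - c.1) ^ 2 + (c.2 + r * Real.sin θ - c.2) ^ 2) /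
        (3 * R ^ 2)) + (s * (c.1 + r * Real.cos θ - c.1) + t * (c.2 + r * Real.sin θ - c.2)) *
        (-(2 * (c.2 + r * Real.sin θ - c.2) / (3 * R ^ 2)))) ^ 2) =
      2 * Real.pi * (r * (1 - r ^ 2 / (3 * R ^ 2)) ^ 2 * (s ^ 2 + t ^ 2)) +
        Real.pi * (r * (-(4 / (3 * R ^ 2)) * (1 - r ^ 2 / (3 * R ^ 2)) * r ^ 2 +
          4 * r ^ 4 / (9 * R ^ 4))) * (s ^ 2 + t ^ 2) := by
    intro r
    rw [← ang (r * (1 - r ^ 2 / (3 * R ^ 2)) ^ 2 * (s ^ 2 + t ^ 2)) 0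
      (r * (-(4 / (3 * R ^ 2)) * (1 - r ^ 2 / (3 * R ^ 2)) * r ^ 2 + 4 * r ^ 4 / (9 * R ^ 4))) s t]
    apply intervalIntegral.integral_congr
    intro θ _
    simp only
    have e : (c.1 + r * Real.cos θ - c.1) ^ 2 + (c.2 + r * Real.sin θ - c.2) ^ 2 =
        r ^ 2 * (Real.sin θ ^ 2 + Real.cos θ ^ 2) := by ring
    rw [e, Real.sin_sq_add_cos_sq]
    have h2 : Real.sin θ ^ 2 = 1 - Real.cos θ ^ 2 := by
      have := Real.sin_sq_add_cos_sq θ; linarith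
    field_simp
    ring_nf
    rw [show Real.sin θ ^ 4 = (Real.sin θ ^ 2) ^ 2 by ring,
      show Real.sin θ ^ 3 = Real.sin θ * Real.sin θ ^ 2 by ring, h2]
    ring
  simp only [h1]
  have h2 : ∀ r : ℝ, 2 * Real.pi * (r * (1 - r ^ 2 / (3 * R ^ 2)) ^ 2 * (s ^ 2 + t ^ 2)) +
        Real.pi * (r * (-(4 / (3 * R ^ 2)) * (1 - r ^ 2 / (3 * R ^ 2)) * r ^ 2 +
          4 * r ^ 4 / (9 * R ^ 4))) * (s ^ 2 + t ^ 2) = (2 * Real.pi * (s ^ 2 + t ^ 2)) * r +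
      (-(8 / (3 * R ^ 2)) * Real.pi * (s ^ 2 + t ^ 2)) * r ^ 3 +
      (10 / (9 * R ^ 4) * Real.pi * (s ^ 2 + t ^ 2)) *
      r ^ 5 + 0 * r ^ 7 := by
    intro r
    field_simp
    ring
  simp only [h2]
  rw [rad]
  field_simp
  ring

end Pool.Agent.Q170.F3
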