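import Pool.Agent.Q170.F3.Defs

/-!
# The polar dual of the rectangle
-/

set_option autoImplicit false

open MeasureTheory Set Filter Topology
open Pool.Agent.Q170.Horn (gradSq mu gradSq_cont)

namespace Pool.Agent.Q170.F3

/-- The half width of the kite. -/
noncomputable def w (x : ℝ) : ℝ := min (2 - 2 * x / 3) (2 + 10 * x / 3)

/-- The kite. -/
def Ki : Set (ℝ × ℝ) := {p | |p.2| < w p.1}

theorem w_cont : Continuous w := by unfold w; fun_prop

theorem polar_Om : polar Om = Ki := by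
  have hcl : closure Om = Icc (-5 / 3 : ℝ) (1 / 3) ×ˢ Icc (-1 / 2 : ℝ) (1 / 2) := by
    unfold Om
    rw [closure_prod_eq, closure_Ioo (by norm_num), closure_Ioo (by norm_num)]
  ext x
  unfold polar Ki w
  rw [hcl]
  simp only [mem_ofPred_eq, lt_min_iff, abs_lt]
  constructor
  · intro h
    have h1 := h (1 / 3, 1 / 2) ⟨⟨by norm_num, by norm_num⟩, ⟨by norm_num, by norm_num⟩⟩
    have h2 := h (1 / 3, -1 / 2) ⟨⟨by norm_num, by norm_num⟩, ⟨by norm_num, by norm_num⟩⟩
    have h3 := h (-5 / 3, 1 / 2) ⟨⟨by norm_num, by norm_num⟩, ⟨by norm_num, by norm_num⟩⟩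
    have h4 := h (-5 / 3, -1 / 2) ⟨⟨by norm_num, by norm_num⟩, ⟨by norm_num, by norm_num⟩⟩
    simp only at h1 h2 h3 h4
    refine ⟨⟨?_, ?_⟩, ⟨?_, ?_⟩⟩ <;> linarith
  · rintro ⟨⟨h1, h2⟩, ⟨h3, h4⟩⟩ y ⟨⟨hy1, hy2⟩, ⟨hy3, hy4⟩⟩
    have a1 : x.1 * y.1 ≤ x.1 / 3 ∨ x.1 * y.1 ≤ -5 * x.1 / 3 := by
      rcases le_total 0 x.1 with h | h
      · left; nlinarith
      · right; nlinarith
    have a2 : x.2 * y.2 ≤ x.2 / 2 ∨ x.2 * y.2 ≤ -x.2 / 2 := by
      rcases le_total 0 x.2 with h | h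
      · left; nlinarith
      · right; nlinarith
    rcases a1 with a1 | a1 <;> rcases a2 with a2 | a2 <;> linarith

theorem Ki_open : IsOpen Ki := isOpen_lt (by fun_prop) (w_cont.comp continuous_fst)

theorem Ki_range {p : ℝ × ℝ} (hp : p ∈ Ki) : p.1 ∈ Ioo (-3 / 5 : ℝ) 3 ∧ p.2 ∈ Ioo (-2 : ℝ) 2 := by
  unfold Ki w at hp
  simp only [mem_ofPred_eq, lt_min_iff, abs_lt] at hp
  obtain ⟨⟨h1, h2⟩, ⟨h3, h4⟩⟩ := hp
  refine ⟨⟨by linarith, by linarith⟩, ⟨?_, ?_⟩⟩
  · rcases le_total 0 p.1 with h | h <;> linarith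
  · rcases le_total 0 p.1 with h | h <;> linarith

theorem Ki_int {F : ℝ × ℝ → ℝ} (hF : Continuous F) : IntegrableOn F Ki := by
  have h : IntegrableOn F (Icc (-3 / 5 : ℝ) 3 ×ˢ Icc (-2 : ℝ) 2) :=
    hF.continuousOn.integrableOn_compact (isCompact_Icc.prod isCompact_Icc)
  apply h.mono_set
  intro p hp
  have := Ki_range hp
  exact ⟨Ioo_subset_Icc_self this.1, Ioo_subset_Icc_self this.2⟩

theorem kite_int {F : ℝ × ℝ → ℝ} (hF : Continuous F) :
    ∫ p in Ki, F p = ∫ x in (-3 / 5 : ℝ)..3, ∫ y in (-w x)..(w x), F (x, y) := by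
  have hm : MeasurableSet Ki := Ki_open.measurableSet
  have hi := Ki_int hF
  rw [← integral_indicator hm]
  have hint2 : Integrable (Ki.indicator F) volume := (integrable_indicator_iff hm).2 hi
  rw [Measure.volume_eq_prod] at hint2 ⊢
  rw [integral_prod _ hint2, intervalIntegral.integral_of_le (by norm_num),
    integral_Ioc_eq_integral_Ioo, ← integral_indicator measurableSet_Ioo]
  apply integral_congr_ae
  apply Eventually.of_forall
  intro x
  simp only
  by_cases hx : x ∈ Ioo (-3 / 5 : ℝ) 3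
  · rw [indicator_of_mem hx]
    have hp : 0 < w x := by
      unfold w
      rw [lt_min_iff]
      exact ⟨by linarith [hx.2], by linarith [hx.1]⟩
    have e1 : (fun y : ℝ => Ki.indicator F (x, y)) =
        (Ioo (-w x) (w x)).indicator (fun y => F (x, y)) := by
      funext y
      by_cases hy : y ∈ Ioo (-w x) (w x)
      · rw [indicator_of_mem hy, indicator_of_mem]
        exact abs_lt.2 hy
      · rw [indicator_of_notMem hy, indicator_of_notMem]
        exact fun h => hy (abs_lt.1 h)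
    rw [e1, integral_indicator measurableSet_Ioo, ← integral_Ioc_eq_integral_Ioo,
      ← intervalIntegral.integral_of_le (by linarith)]
  · rw [indicator_of_notMem hx]
    have e1 : (fun y : ℝ => Ki.indicator F (x, y)) = fun _ => (0:ℝ) := by
      funext y
      rw [indicator_of_notMem]
      exact fun h => hx (Ki_range h).1
    rw [e1, integral_zero]

theorem poly3 (c0 c1 c2 c3 a b : ℝ) : ∫ x in a..b, (c0 + c1 * x + c2 * x ^ 2 + c3 * x ^ 3) =
    (c0 * b + c1 * b ^ 2 / 2 + c2 * b ^ 3 / 3 + c3 * b ^ 4 / 4) -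
      (c0 * a + c1 * a ^ 2 / 2 + c2 * a ^ 3 / 3 + c3 * a ^ 4 / 4) := by
  have hd : ∀ x ∈ uIcc a b, HasDerivAt (fun x : ℝ => c0 * x + c1 * x ^ 2 / 2 +
      c2 * x ^ 3 / 3 + c3 * x ^ 4 / 4) (c0 + c1 * x + c2 * x ^ 2 + c3 * x ^ 3) x := by
    intro x _
    have hi := hasDerivAt_id x
    have h1 := (((hi.const_mul c0).add (((hi.pow 2).const_mul c1).div_const 2)).add
      (((hi.pow 3).const_mul c2).div_const 3)).add (((hi.pow 4).const_mul c3).div_const 4)
    refine h1.congr_deriv ?_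
    simp
    ring
  exact intervalIntegral.integral_eq_sub_of_hasDerivAt hd
    (Continuous.intervalIntegrable (by fun_prop) _ _)

theorem kite_poly (a0 a1 a2 b : ℝ) : ∫ p in Ki, (a0 + a1 * p.1 + a2 * p.1 ^ 2 + b * p.2 ^ 2) =
    36 / 5 * a0 + 144 / 25 * a1 + 1134 / 125 * a2 + 24 / 5 * b := by
  rw [kite_int (F := fun p => a0 + a1 * p.1 + a2 * p.1 ^ 2 + b * p.2 ^ 2) (by fun_prop)]
  simp only
  have h1 : ∀ x : ℝ, ∫ y in (-w x)..(w x), (a0 + a1 * x + a2 * x ^ 2 + b * y ^ 2) =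
      2 * w x * (a0 + a1 * x + a2 * x ^ 2) + 2 / 3 * b * w x ^ 3 := by
    intro x
    have e : ∀ y : ℝ, a0 + a1 * x + a2 * x ^ 2 + b * y ^ 2 =
        (a0 + a1 * x + a2 * x ^ 2) + 0 * y + b * y ^ 2 + 0 * y ^ 3 := fun y => by ring
    simp only [e]
    rw [poly3]
    ring
  simp only [h1]
  have hw := w_cont
  have hcont : Continuous (fun x => 2 * w x * (a0 + a1 * x + a2 * x ^ 2) + 2 / 3 * b * w x ^ 3) := by
    fun_prop
  rw [← intervalIntegral.integral_add_adjacent_intervals (b := (0:ℝ))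
    (hcont.intervalIntegrable _ _) (hcont.intervalIntegrable _ _)]
  have hl : ∫ x in (-3 / 5 : ℝ)..0, (2 * w x * (a0 + a1 * x + a2 * x ^ 2) +
      2 / 3 * b * w x ^ 3) = ∫ x in (-3 / 5 : ℝ)..0, ((4 * a0 + 16 / 3 * b) +
      (4 * a1 + 20 * a0 / 3 + 80 / 3 * b) * x +
      (4 * a2 + 20 * a1 / 3 + 400 / 9 * b) * x ^ 2 + (20 * a2 / 3 + 2000 / 81 * b) * x ^ 3) := by
    apply intervalIntegral.integral_congr
    intro x hx
    rw [uIcc_of_le (by norm_num)] at hx
    have e : w x = 2 + 10 * x / 3 := by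
      unfold w; exact min_eq_right (by linarith [hx.2])
    simp only [e]
    ring
  have hr : ∫ x in (0 : ℝ)..3, (2 * w x * (a0 + a1 * x + a2 * x ^ 2) +
      2 / 3 * b * w x ^ 3) = ∫ x in (0 : ℝ)..3, ((4 * a0 + 16 / 3 * b) +
      (4 * a1 - 4 * a0 / 3 - 16 / 3 * b) * x +
      (4 * a2 - 4 * a1 / 3 + 16 / 9 * b) * x ^ 2 + (-(4 * a2 / 3) - 16 / 81 * b) * x ^ 3) := by
    apply intervalIntegral.integral_congr
    intro x hx
    rw [uIcc_of_le (by norm_num)] at hx
    have e : w x = 2 - 2 * x / 3 := by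
      unfold w; exact min_eq_left (by linarith [hx.1])
    simp only [e]
    ring
  rw [hl, hr, poly3, poly3]
  ring

theorem kite_y : ∫ p in Ki, p.2 = 0 := by
  rw [kite_int (F := fun p => p.2) (by fun_prop)]
  simp only
  have h1 : ∀ x : ℝ, ∫ y in (-w x)..(w x), y = 0 := by
    intro x
    rw [integral_id]; ring
  simp only [h1]
  simp

theorem area_Ki : area Ki = 36 / 5 := by
  have h := kite_poly 1 0 0 0
  simp only [zero_mul, add_zero, mul_one, mul_zero] at h
  rw [setIntegral_const] at h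
  simpa [area, measureReal_def] using h

theorem centroid_Ki : centroid Ki = (4 / 5, 0) := by
  have h := kite_poly 0 1 0 0
  simp only [zero_mul, add_zero, one_mul, mul_one, mul_zero, zero_add] at h
  unfold centroid
  rw [kite_y, area_Ki, h]
  norm_num

theorem inertia_Ki : inertia Ki = 1158 / 125 := by
  unfold inertia
  rw [centroid_Ki]
  have e : ∀ p : ℝ × ℝ, (p.1 - ((4 / 5, 0) : ℝ × ℝ).1) ^ 2 + (p.2 - ((4 / 5, 0) : ℝ × ℝ).2) ^ 2 =
      16 / 25 + (-(8 / 5)) * p.1 + 1 * p.1 ^ 2 + 1 * p.2 ^ 2 := by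
    intro p
    simp only
    ring
  simp only [e]
  rw [kite_poly]
  norm_num

theorem area_Om : area Om = 2 := by
  unfold area Om
  rw [Measure.volume_eq_prod, Measure.prod_prod, Real.volume_Ioo, Real.volume_Ioo,
    ← ENNReal.ofReal_mul (by norm_num), ENNReal.toReal_ofReal (by norm_num)]
  norm_num

theorem F_Om : 2700 / 193 * Real.pi ^ 2 ≤ F 3 Om := by
  have hpi := Real.pi_pos
  rw [F_three, polar_Om, area_Ki, inertia_Ki, area_Om]
  have h1 := mu1_ge
  have h2 := mu2_ge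
  nlinarith

theorem Om_open : IsOpen Om := isOpen_Ioo.prod isOpen_Ioo

theorem Om_convex : Convex ℝ Om := (convex_Ioo _ _).prod (convex_Ioo _ _)

theorem Om_bounded : Bornology.IsBounded Om :=
  Metric.isBounded_Ioo _ _ |>.prod (Metric.isBounded_Ioo _ _)

end Pool.Agent.Q170.F3
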