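import Pool.Agent.Q170.F3.Poin
import Pool.Agent.Q170.Horn

/-!
# Neumann eigenvalues of the rectangle of sides 2 and 1
-/

set_option autoImplicit false

open MeasureTheory Set
open Pool.Agent.Q170.Horn (gradSq mu gradSq_cont)

namespace Pool.Agent.Q170.F3

theorem rect_int {F : ℝ × ℝ → ℝ} (hF : Continuous F) {a b c d : ℝ} (hab : a ≤ b) (hcd : c ≤ d) :
    ∫ p in Ioo a b ×ˢ Ioo c d, F p = ∫ x in a..b, ∫ y in c..d, F (x, y) := by
  have hi : IntegrableOn F (Ioo a b ×ˢ Ioo c d) (volume.prod volume) := by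
    rw [← Measure.volume_eq_prod]
    exact (hF.continuousOn.integrableOn_compact (isCompact_Icc.prod isCompact_Icc)).mono_set
      (prod_mono Ioo_subset_Icc_self Ioo_subset_Icc_self)
  rw [Measure.volume_eq_prod, setIntegral_prod _ hi, intervalIntegral.integral_of_le hab,
    integral_Ioc_eq_integral_Ioo]
  apply setIntegral_congr_fun measurableSet_Ioo
  intro x _
  simp only
  rw [intervalIntegral.integral_of_le hcd, integral_Ioc_eq_integral_Ioo]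

theorem rect_poincare {u : ℝ × ℝ → ℝ} (hu : ContDiff ℝ 1 u) {a b L : ℝ} (hL : 1 ≤ L)
    (h0 : ∫ x in a..(a + L), ∫ y in b..(b + 1), u (x, y) = 0) :
    Real.pi ^ 2 / L ^ 2 * ∫ x in a..(a + L), ∫ y in b..(b + 1), u (x, y) ^ 2 ≤
      ∫ x in a..(a + L), ∫ y in b..(b + 1), gradSq u (x, y) := by
  have hL0 : 0 < L := by linarith
  have huc := hu.continuous
  have hdu := hu.continuous_fderiv one_ne_zero
  have sub : ∀ G : ℝ × ℝ → ℝ, ∫ x in a..(a + L), ∫ y in b..(b + 1), G (x, y) =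
      L * ∫ x in (0:ℝ)..1, ∫ y in (0:ℝ)..1, G (L * x + a, 1 * y + b) := by
    intro G
    have h1 := intervalIntegral.integral_comp_mul_add (a := (0:ℝ)) (b := 1)
      (fun x => ∫ y in (0:ℝ)..1, G (x, 1 * y + b)) hL0.ne' a
    have h2 : ∀ x, ∫ y in (0:ℝ)..1, G (x, 1 * y + b) = ∫ y in b..(b + 1), G (x, y) := by
      intro x
      have := intervalIntegral.integral_comp_mul_add (a := (0:ℝ)) (b := 1)
        (fun y => G (x, y)) one_ne_zero b
      rw [this]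
      simp [add_comm]
    simp only [h2] at h1 ⊢
    rw [h1, smul_eq_mul, mul_zero, mul_one, zero_add, add_comm L a]
    field_simp
  have hpc : Continuous (fun p : ℝ × ℝ => ((L * p.1 + a, 1 * p.2 + b) : ℝ × ℝ)) := by fun_prop
  rw [sub u] at h0
  rw [sub (fun p => u p ^ 2), sub (gradSq u)]
  have hxd : ∀ x y, HasDerivAt (fun x => u (L * x + a, 1 * y + b))
      (L * fderiv ℝ u (L * x + a, 1 * y + b) (1, 0)) x := by
    intro x y
    have h1 : HasDerivAt (fun x => ((L * x + a, 1 * y + b) : ℝ × ℝ)) (L, 0) x := by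
      have := (((hasDerivAt_id x).const_mul L).add_const a).prodMk
        (hasDerivAt_const x (1 * y + b))
      simpa using this
    have h2 := ((hu.differentiable one_ne_zero) (L * x + a, 1 * y + b)).hasFDerivAt
    have := h2.comp_hasDerivAt x h1
    refine this.congr_deriv ?_
    have e : ((L, 0) : ℝ × ℝ) = L • (1, 0) := by ext <;> simp
    rw [e, map_smul, smul_eq_mul]
  have hyd : ∀ x y, HasDerivAt (fun y => u (L * x + a, 1 * y + b))
      (fderiv ℝ u (L * x + a, 1 * y + b) (0, 1)) y := by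
    intro x y
    have h1 : HasDerivAt (fun y => ((L * x + a, 1 * y + b) : ℝ × ℝ)) (0, 1) y := by
      have := (hasDerivAt_const y (L * x + a)).prodMk
        (((hasDerivAt_id y).const_mul 1).add_const b)
      simpa using this
    have h2 := ((hu.differentiable one_ne_zero) (L * x + a, 1 * y + b)).hasFDerivAt
    exact h2.comp_hasDerivAt y h1
  have hcx : Continuous (fun p : ℝ × ℝ => fderiv ℝ u (L * p.1 + a, 1 * p.2 + b) (1, 0)) :=
    (hdu.comp hpc).clm_apply continuous_const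
  have hcy : Continuous (fun p : ℝ × ℝ => fderiv ℝ u (L * p.1 + a, 1 * p.2 + b) (0, 1)) :=
    (hdu.comp hpc).clm_apply continuous_const
  have key := sq_poincare (F := fun x y => u (L * x + a, 1 * y + b))
    (Fx := fun x y => L * fderiv ℝ u (L * x + a, 1 * y + b) (1, 0))
    (Fy := fun x y => fderiv ℝ u (L * x + a, 1 * y + b) (0, 1))
    (huc.comp hpc) (continuous_const.mul hcx) hcy hxd hyd
    ((mul_eq_zero.1 h0).resolve_left hL0.ne')
  have hX : ∫ x in (0:ℝ)..1, ∫ y in (0:ℝ)..1,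
      (L * fderiv ℝ u (L * x + a, 1 * y + b) (1, 0)) ^ 2 = L ^ 2 * ∫ x in (0:ℝ)..1,
      ∫ y in (0:ℝ)..1, (fderiv ℝ u (L * x + a, 1 * y + b) (1, 0)) ^ 2 := by
    simp only [mul_pow, intervalIntegral.integral_const_mul]
  rw [hX] at key
  have hcx2 : Continuous (fun p : ℝ × ℝ =>
      (fderiv ℝ u (L * p.1 + a, 1 * p.2 + b) (1, 0)) ^ 2) := hcx.pow 2
  have hcy2 : Continuous (fun p : ℝ × ℝ =>
      (fderiv ℝ u (L * p.1 + a, 1 * p.2 + b) (0, 1)) ^ 2) := hcy.pow 2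
  have ix : Continuous (fun x => ∫ y in (0:ℝ)..1,
      (fderiv ℝ u (L * x + a, 1 * y + b) (1, 0)) ^ 2) :=
    Horn.cont_par (f := fun x y => (fderiv ℝ u (L * x + a, 1 * y + b) (1, 0)) ^ 2)
      hcx2 _ _
  have iy : Continuous (fun x => ∫ y in (0:ℝ)..1,
      (fderiv ℝ u (L * x + a, 1 * y + b) (0, 1)) ^ 2) :=
    Horn.cont_par (f := fun x y => (fderiv ℝ u (L * x + a, 1 * y + b) (0, 1)) ^ 2)
      hcy2 _ _
  have hG : ∫ x in (0:ℝ)..1, ∫ y in (0:ℝ)..1, gradSq u (L * x + a, 1 * y + b) =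
      (∫ x in (0:ℝ)..1, ∫ y in (0:ℝ)..1, (fderiv ℝ u (L * x + a, 1 * y + b) (1, 0)) ^ 2) +
      ∫ x in (0:ℝ)..1, ∫ y in (0:ℝ)..1, (fderiv ℝ u (L * x + a, 1 * y + b) (0, 1)) ^ 2 := by
    rw [← ii_add ix iy]
    apply intervalIntegral.integral_congr
    intro x _
    simp only
    have s1 : Continuous (fun y => (fderiv ℝ u (L * x + a, 1 * y + b) (1, 0)) ^ 2) :=
      hcx2.comp (continuous_const.prodMk continuous_id : Continuous fun y : ℝ => (x, y))
    have s2 : Continuous (fun y => (fderiv ℝ u (L * x + a, 1 * y + b) (0, 1)) ^ 2) :=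
      hcy2.comp (continuous_const.prodMk continuous_id : Continuous fun y : ℝ => (x, y))
    rw [← ii_add s1 s2]
    rfl
  rw [hG]
  have pB : 0 ≤ ∫ x in (0:ℝ)..1, ∫ y in (0:ℝ)..1,
      (fderiv ℝ u (L * x + a, 1 * y + b) (0, 1)) ^ 2 :=
    intervalIntegral.integral_nonneg zero_le_one fun x _ =>
      intervalIntegral.integral_nonneg zero_le_one fun y _ => sq_nonneg _
  generalize (∫ x in (0:ℝ)..1, ∫ y in (0:ℝ)..1,
    (fderiv ℝ u (L * x + a, 1 * y + b) (1, 0)) ^ 2) = A at *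
  generalize (∫ x in (0:ℝ)..1, ∫ y in (0:ℝ)..1,
    (fderiv ℝ u (L * x + a, 1 * y + b) (0, 1)) ^ 2) = B at *
  generalize (∫ x in (0:ℝ)..1, ∫ y in (0:ℝ)..1, u (L * x + a, 1 * y + b) ^ 2) = D at *
  have hL2 : 1 ≤ L ^ 2 := by nlinarith
  have h3 : B ≤ L ^ 2 * B := by nlinarith
  have h4 : Real.pi ^ 2 / L ^ 2 * (L * D) = L * (Real.pi ^ 2 * D / L ^ 2) := by ring
  rw [h4]
  apply mul_le_mul_of_nonneg_left _ hL0.le
  rw [div_le_iff₀ (by positivity)]
  linarith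

/-- A nontrivial combination with `k` vanishing linear constraints. -/
theorem exists_ker {k : ℕ} (M : Matrix (Fin k) (Fin (k + 1)) ℝ) :
    ∃ t : Fin (k + 1) → ℝ, t ≠ 0 ∧ ∀ j, ∑ i, t i * M j i = 0 := by
  have h : LinearMap.ker M.mulVecLin ≠ ⊥ := by
    apply LinearMap.ker_ne_bot_of_finrank_lt
    simp
  obtain ⟨t, ht, ht0⟩ := (Submodule.ne_bot_iff _).1 h
  refine ⟨t, ht0, fun j => ?_⟩
  have := congrFun (LinearMap.mem_ker.1 ht) j
  simp only [Matrix.mulVecLin_apply, Matrix.mulVec, dotProduct, Pi.zero_apply] at this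
  rw [← this]
  apply Finset.sum_congr rfl
  intro i _; ring

/-- The rectangle. -/
def Om : Set (ℝ × ℝ) := Ioo (-5 / 3 : ℝ) (1 / 3) ×ˢ Ioo (-1 / 2 : ℝ) (1 / 2)

theorem int_Om {F : ℝ × ℝ → ℝ} (hF : Continuous F) :
    ∫ p in Om, F p = ∫ x in (-5 / 3 : ℝ)..(1 / 3), ∫ y in (-1 / 2 : ℝ)..(1 / 2), F (x, y) :=
  rect_int hF (by norm_num) (by norm_num)

theorem comb_cd {k : ℕ} {f : Fin (k + 1) → ℝ × ℝ → ℝ} (hf : ∀ i, ContDiff ℝ 1 (f i))
    (t : Fin (k + 1) → ℝ) : ContDiff ℝ 1 (fun p => ∑ i, t i * f i p) := by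
  apply ContDiff.sum
  intro i _
  exact contDiff_const.mul (hf i)

theorem comb_int {k : ℕ} {f : Fin (k + 1) → ℝ × ℝ → ℝ} (hf : ∀ i, ContDiff ℝ 1 (f i))
    (t : Fin (k + 1) → ℝ) {a b c d : ℝ} (hab : a ≤ b) (hcd : c ≤ d) :
    ∫ x in a..b, ∫ y in c..d, ∑ i, t i * f i (x, y) =
      ∑ i, t i * ∫ x in a..b, ∫ y in c..d, f i (x, y) := by
  have h1 : ∀ i, Continuous (fun p => t i * f i p) := fun i =>
    continuous_const.mul (hf i).continuous
  have h2 : Continuous (fun p => ∑ i, t i * f i p) := (comb_cd hf t).continuous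
  rw [← rect_int h2 hab hcd, integral_finsetSum]
  · apply Finset.sum_congr rfl
    intro i _
    rw [integral_const_mul, rect_int (hf i).continuous hab hcd]
  · intro i _
    exact ((h1 i).continuousOn.integrableOn_compact (isCompact_Icc.prod isCompact_Icc)).mono_set
      (prod_mono Ioo_subset_Icc_self Ioo_subset_Icc_self)

theorem mu1_low {Λ : ℝ} {f : Fin 2 → ℝ × ℝ → ℝ} (hf : ∀ i, ContDiff ℝ 1 (f i))
    (hpos : ∀ t : Fin 2 → ℝ, t ≠ 0 → 0 < ∫ p in Om, (∑ i, t i * f i p) ^ 2)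
    (hle : ∀ t : Fin 2 → ℝ, ∫ p in Om, gradSq (fun q => ∑ i, t i * f i q) p ≤
      Λ * ∫ p in Om, (∑ i, t i * f i p) ^ 2) : Real.pi ^ 2 / 4 ≤ Λ := by
  obtain ⟨t, ht, ht0⟩ := exists_ker (k := 1) (fun _ i =>
    ∫ x in (-5 / 3 : ℝ)..(1 / 3), ∫ y in (-1 / 2 : ℝ)..(1 / 2), f i (x, y))
  have hu := comb_cd (k := 1) hf t
  have h1 := hpos t ht
  have h2 := hle t
  have hu2 : Continuous (fun p => (∑ i, t i * f i p) ^ 2) := hu.continuous.pow 2
  rw [int_Om hu2] at h1 h2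
  rw [int_Om (gradSq_cont hu)] at h2
  have h3 := rect_poincare hu (a := -5 / 3) (b := -1 / 2) (L := 2) (by norm_num) (by
    have e1 : (-5 / 3 + 2 : ℝ) = 1 / 3 := by norm_num
    have e2 : (-1 / 2 + 1 : ℝ) = 1 / 2 := by norm_num
    rw [e1, e2, comb_int (k := 1) hf t (by norm_num) (by norm_num)]
    exact ht0 0)
  have e1 : (-5 / 3 + 2 : ℝ) = 1 / 3 := by norm_num
  have e2 : (-1 / 2 + 1 : ℝ) = 1 / 2 := by norm_num
  rw [e1, e2] at h3
  have h4 := h3.trans h2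
  have h5 := le_of_mul_le_mul_right h4 h1
  have e3 : (2:ℝ) ^ 2 = 4 := by norm_num
  rwa [e3] at h5

theorem mu2_low {Λ : ℝ} {f : Fin 3 → ℝ × ℝ → ℝ} (hf : ∀ i, ContDiff ℝ 1 (f i))
    (hpos : ∀ t : Fin 3 → ℝ, t ≠ 0 → 0 < ∫ p in Om, (∑ i, t i * f i p) ^ 2)
    (hle : ∀ t : Fin 3 → ℝ, ∫ p in Om, gradSq (fun q => ∑ i, t i * f i q) p ≤
      Λ * ∫ p in Om, (∑ i, t i * f i p) ^ 2) : Real.pi ^ 2 ≤ Λ := by
  obtain ⟨t, ht, ht0⟩ := exists_ker (k := 2) (fun j i => ![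
    ∫ x in (-5 / 3 : ℝ)..(-2 / 3), ∫ y in (-1 / 2 : ℝ)..(1 / 2), f i (x, y),
    ∫ x in (-2 / 3 : ℝ)..(1 / 3), ∫ y in (-1 / 2 : ℝ)..(1 / 2), f i (x, y)] j)
  have hu := comb_cd (k := 2) hf t
  have h1 := hpos t ht
  have h2 := hle t
  have hu2 : Continuous (fun p => (∑ i, t i * f i p) ^ 2) := hu.continuous.pow 2
  rw [int_Om hu2] at h1 h2
  rw [int_Om (gradSq_cont hu)] at h2
  have e1 : (-5 / 3 + 1 : ℝ) = -2 / 3 := by norm_num
  have e2 : (-1 / 2 + 1 : ℝ) = 1 / 2 := by norm_num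
  have e3 : (-2 / 3 + 1 : ℝ) = 1 / 3 := by norm_num
  have h3 := rect_poincare hu (a := -5 / 3) (b := -1 / 2) (L := 1) le_rfl (by
    rw [e1, e2, comb_int (k := 2) hf t (by norm_num) (by norm_num)]
    exact ht0 0)
  have h3' := rect_poincare hu (a := -2 / 3) (b := -1 / 2) (L := 1) le_rfl (by
    rw [e3, e2, comb_int (k := 2) hf t (by norm_num) (by norm_num)]
    exact ht0 1)
  rw [e1, e2] at h3
  rw [e3, e2] at h3'
  have split : ∀ {G : ℝ × ℝ → ℝ}, Continuous G →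
      ∫ x in (-5 / 3 : ℝ)..(1 / 3), ∫ y in (-1 / 2 : ℝ)..(1 / 2), G (x, y) =
      (∫ x in (-5 / 3 : ℝ)..(-2 / 3), ∫ y in (-1 / 2 : ℝ)..(1 / 2), G (x, y)) +
      ∫ x in (-2 / 3 : ℝ)..(1 / 3), ∫ y in (-1 / 2 : ℝ)..(1 / 2), G (x, y) := by
    intro G hG
    have hc : Continuous (fun x => ∫ y in (-1 / 2 : ℝ)..(1 / 2), G (x, y)) :=
      Horn.cont_par (f := fun x y => G (x, y)) hG _ _
    rw [intervalIntegral.integral_add_adjacent_intervals (hc.intervalIntegrable _ _)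
      (hc.intervalIntegrable _ _)]
  have h6 := split hu2
  have h7 := split (gradSq_cont hu)
  simp only [one_pow, div_one] at h3 h3'
  have h4 : Real.pi ^ 2 * (∫ x in (-5 / 3 : ℝ)..(1 / 3), ∫ y in (-1 / 2 : ℝ)..(1 / 2),
      (∑ i, t i * f i (x, y)) ^ 2) ≤ Λ * ∫ x in (-5 / 3 : ℝ)..(1 / 3),
      ∫ y in (-1 / 2 : ℝ)..(1 / 2), (∑ i, t i * f i (x, y)) ^ 2 := by
    refine le_trans ?_ h2
    rw [h7, h6]
    linarith
  exact le_of_mul_le_mul_right h4 h1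

end Pool.Agent.Q170.F3
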