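import Pool.Agent.Q170.F3.Neu

/-!
# Neumann eigenvalues of the rectangle: the bounds
-/

set_option autoImplicit false

open MeasureTheory Set
open Pool.Agent.Q170.Horn (gradSq mu gradSq_cont)

namespace Pool.Agent.Q170.F3

theorem gradSq_of {u : ℝ × ℝ → ℝ} {p : ℝ × ℝ} {ux uy : ℝ} (hu : DifferentiableAt ℝ u p)
    (hx : HasDerivAt (fun x => u (x, p.2)) ux p.1) (hy : HasDerivAt (fun y => u (p.1, y)) uy p.2) :
    gradSq u p = ux ^ 2 + uy ^ 2 := by
  have h1 : HasDerivAt (fun x : ℝ => ((x, p.2) : ℝ × ℝ)) (1, 0) p.1 :=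
    (hasDerivAt_id p.1).prodMk (hasDerivAt_const p.1 p.2)
  have h2 : HasDerivAt (fun y : ℝ => ((p.1, y) : ℝ × ℝ)) (0, 1) p.2 :=
    (hasDerivAt_const p.2 p.1).prodMk (hasDerivAt_id p.2)
  have h3 : HasFDerivAt u (fderiv ℝ u p) (p.1, p.2) := hu.hasFDerivAt
  have h4 := (h3.comp_hasDerivAt p.1 h1).unique hx
  have h5 := (h3.comp_hasDerivAt p.2 h2).unique hy
  unfold gradSq
  rw [h4, h5]

theorem int_sq (α β a b : ℝ) : ∫ x in a..b, (α + β * x) ^ 2 =
    (α ^ 2 * b + α * β * b ^ 2 + β ^ 2 * b ^ 3 / 3) -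
      (α ^ 2 * a + α * β * a ^ 2 + β ^ 2 * a ^ 3 / 3) := by
  have hd : ∀ x ∈ uIcc a b, HasDerivAt (fun x : ℝ => α ^ 2 * x + α * β * x ^ 2 +
      β ^ 2 * x ^ 3 / 3) ((α + β * x) ^ 2) x := by
    intro x _
    have h1 := ((hasDerivAt_id x).const_mul (α ^ 2)).add (((hasDerivAt_id x).pow 2).const_mul
      (α * β)) |>.add ((((hasDerivAt_id x).pow 3).const_mul (β ^ 2)).div_const 3)
    refine h1.congr_deriv ?_
    simp
    ring
  exact intervalIntegral.integral_eq_sub_of_hasDerivAt hd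
    (Continuous.intervalIntegrable (by fun_prop) _ _)

/-- Affine functions on the rectangle. -/
theorem aff_int (t0 B C : ℝ) : ∫ p in Om, (t0 + B * (p.1 + 2 / 3) + C * p.2) ^ 2 =
    2 * t0 ^ 2 + 2 / 3 * B ^ 2 + 1 / 6 * C ^ 2 := by
  rw [int_Om (F := fun p => (t0 + B * (p.1 + 2 / 3) + C * p.2) ^ 2) (by fun_prop)]
  simp only
  have h1 : ∀ x : ℝ, ∫ y in (-1 / 2 : ℝ)..(1 / 2), (t0 + B * (x + 2 / 3) + C * y) ^ 2 =
      ((t0 + 2 / 3 * B) + B * x) ^ 2 + C ^ 2 / 12 := by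
    intro x
    rw [int_sq]; ring
  simp only [h1]
  rw [ii_add (by fun_prop) (by fun_prop), int_sq]
  simp
  ring

theorem aff_grad (t0 B C : ℝ) : ∫ p in Om, gradSq (fun q => t0 + B * (q.1 + 2 / 3) + C * q.2) p =
    2 * B ^ 2 + 2 * C ^ 2 := by
  have h1 : ∀ p : ℝ × ℝ, gradSq (fun q : ℝ × ℝ => t0 + B * (q.1 + 2 / 3) + C * q.2) p =
      B ^ 2 + C ^ 2 := by
    intro p
    apply gradSq_of
    · fun_prop
    · have := ((((hasDerivAt_id p.1).add_const (2 / 3)).const_mul B).const_add t0).add_const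
        (C * p.2)
      simpa using this
    · have := ((hasDerivAt_id p.2).const_mul C).const_add (t0 + B * (p.1 + 2 / 3))
      simpa using this
  simp only [h1]
  rw [int_Om (F := fun _ => B ^ 2 + C ^ 2) (by fun_prop)]
  simp
  ring

theorem mu1_ge : Real.pi ^ 2 / 4 ≤ mu 1 Om := by
  apply le_csInf
  · refine ⟨3, fun i => ![fun _ => 1, fun p => p.1 + 2 / 3] i, ?_, ?_, ?_⟩
    · intro i
      fin_cases i
      · exact contDiff_const
      · exact contDiff_fst.add contDiff_const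
    · intro t ht
      have e : ∀ p : ℝ × ℝ, ∑ i : Fin 2, t i * (![fun _ => 1, fun p => p.1 + 2 / 3] :
          Fin 2 → ℝ × ℝ → ℝ) i p = t 0 + t 1 * (p.1 + 2 / 3) + 0 * p.2 := by
        intro p
        simp [Fin.sum_univ_two]
      simp only [e]
      rw [aff_int]
      by_contra hcon
      apply ht
      have h0 : t 0 = 0 := by nlinarith [sq_nonneg (t 0), sq_nonneg (t 1)]
      have h1 : t 1 = 0 := by nlinarith [sq_nonneg (t 0), sq_nonneg (t 1)]
      ext i; fin_cases i <;> simp [h0, h1]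
    · intro t
      have e : ∀ p : ℝ × ℝ, ∑ i : Fin 2, t i * (![fun _ => 1, fun p => p.1 + 2 / 3] :
          Fin 2 → ℝ × ℝ → ℝ) i p = t 0 + t 1 * (p.1 + 2 / 3) + 0 * p.2 := by
        intro p
        simp [Fin.sum_univ_two]
      simp only [e]
      rw [aff_int, aff_grad]
      nlinarith [sq_nonneg (t 0), sq_nonneg (t 1)]
  · rintro Λ ⟨f, h1, h2, h3⟩
    exact mu1_low h1 h2 h3

theorem mu2_ge : Real.pi ^ 2 ≤ mu 2 Om := by
  apply le_csInf
  · have e : ∀ (t : Fin 3 → ℝ) (p : ℝ × ℝ), ∑ i : Fin 3, t i * (![fun _ => 1,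
        fun p => p.1 + 2 / 3, fun p => p.2] : Fin 3 → ℝ × ℝ → ℝ) i p =
        t 0 + t 1 * (p.1 + 2 / 3) + t 2 * p.2 := by
      intro t p
      simp [Fin.sum_univ_three]
    refine ⟨12, fun i => ![fun _ => 1, fun p => p.1 + 2 / 3, fun p => p.2] i, ?_, ?_, ?_⟩
    · intro i
      fin_cases i
      · exact contDiff_const
      · exact contDiff_fst.add contDiff_const
      · exact contDiff_snd
    · intro t ht
      simp only [e]
      rw [aff_int]
      by_contra hcon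
      apply ht
      have h0 : t 0 = 0 := by nlinarith [sq_nonneg (t 0), sq_nonneg (t 1), sq_nonneg (t 2)]
      have h1 : t 1 = 0 := by nlinarith [sq_nonneg (t 0), sq_nonneg (t 1), sq_nonneg (t 2)]
      have h2 : t 2 = 0 := by nlinarith [sq_nonneg (t 0), sq_nonneg (t 1), sq_nonneg (t 2)]
      ext i; fin_cases i <;> simp [h0, h1, h2]
    · intro t
      simp only [e]
      rw [aff_int, aff_grad]
      nlinarith [sq_nonneg (t 0), sq_nonneg (t 1), sq_nonneg (t 2)]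
  · rintro Λ ⟨f, h1, h2, h3⟩
    exact mu2_low h1 h2 h3

end Pool.Agent.Q170.F3
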