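import Mathlib

/-!
# The Poincaré inequality on the unit square (copied from `Pool.Agent.Helper238.Poin`)
-/

set_option autoImplicit false

open MeasureTheory Set

namespace Pool.Agent.Q170.F3

theorem ii_add {f g : ℝ → ℝ} (hf : Continuous f) (hg : Continuous g) (a b : ℝ) :
    ∫ x in a..b, (f x + g x) = (∫ x in a..b, f x) + ∫ x in a..b, g x :=
  intervalIntegral.integral_add (hf.intervalIntegrable _ _) (hg.intervalIntegrable _ _)

theorem ii_sub {f g : ℝ → ℝ} (hf : Continuous f) (hg : Continuous g) (a b : ℝ) :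
    ∫ x in a..b, (f x - g x) = (∫ x in a..b, f x) - ∫ x in a..b, g x :=
  intervalIntegral.integral_sub (hf.intervalIntegrable _ _) (hg.intervalIntegrable _ _)

theorem ii_mono {f g : ℝ → ℝ} (hf : Continuous f) (hg : Continuous g) {a b : ℝ} (hab : a ≤ b)
    (h : ∀ x ∈ Icc a b, f x ≤ g x) : ∫ x in a..b, f x ≤ ∫ x in a..b, g x :=
  intervalIntegral.integral_mono_on hab (hf.intervalIntegrable _ _) (hg.intervalIntegrable _ _) h

/-- Dirichlet Wirtinger inequality, sub-critical form -/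
theorem wirt_lt {M m : ℝ → ℝ} (hM : ∀ x, HasDerivAt M (m x) x) (hm : Continuous m)
    (h0 : M 0 = 0) (h1 : M 1 = 0) {ω : ℝ} (hω0 : 0 < ω) (hω : ω < Real.pi) :
    ω ^ 2 * ∫ x in (0:ℝ)..1, M x ^ 2 ≤ ∫ x in (0:ℝ)..1, m x ^ 2 := by
  have hMc : Continuous M := continuous_iff_continuousAt.2 fun x => (hM x).continuousAt
  have hcos : ∀ x ∈ uIcc (0:ℝ) 1, 0 < Real.cos (ω * (x - 1 / 2)) := by
    intro x hx
    rw [uIcc_of_le (by norm_num)] at hx
    apply Real.cos_pos_of_mem_Ioo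
    constructor
    · nlinarith [hx.1, hx.2]
    · nlinarith [hx.1, hx.2]
  have hder : ∀ x ∈ uIcc (0:ℝ) 1, HasDerivAt
      (fun x => M x ^ 2 * (ω * (Real.sin (ω * (x - 1 / 2)) / Real.cos (ω * (x - 1 / 2)))))
      (2 * M x * m x * (ω * (Real.sin (ω * (x - 1 / 2)) / Real.cos (ω * (x - 1 / 2))))
        + M x ^ 2 * (ω ^ 2 * (1 + (Real.sin (ω * (x - 1 / 2)) / Real.cos (ω * (x - 1 / 2))) ^ 2))) x := by
    intro x hx
    have hc := hcos x hx
    have e1 : HasDerivAt (fun x : ℝ => ω * (x - 1 / 2)) (ω * 1) x :=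
      ((hasDerivAt_id x).sub_const _).const_mul _
    have e2 : HasDerivAt (fun x => ω * (Real.sin (ω * (x - 1 / 2)) / Real.cos (ω * (x - 1 / 2))))
        (ω ^ 2 * (1 + (Real.sin (ω * (x - 1 / 2)) / Real.cos (ω * (x - 1 / 2))) ^ 2)) x := by
      have := (e1.sin.div e1.cos hc.ne').const_mul ω
      refine this.congr_deriv ?_
      have hne := hc.ne'
      clear this
      generalize Real.cos (ω * (x - 1 / 2)) = C at *
      generalize Real.sin (ω * (x - 1 / 2)) = S at *
      field_simp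
      ring
    have e3 := ((hM x).pow 2).mul e2
    refine e3.congr_deriv ?_
    simp
  have hcont : ContinuousOn (fun x => 2 * M x * m x * (ω * (Real.sin (ω * (x - 1 / 2)) / Real.cos (ω * (x - 1 / 2))))
        + M x ^ 2 * (ω ^ 2 * (1 + (Real.sin (ω * (x - 1 / 2)) / Real.cos (ω * (x - 1 / 2))) ^ 2))) (uIcc 0 1) := by
    have hq : ContinuousOn (fun x => Real.sin (ω * (x - 1 / 2)) / Real.cos (ω * (x - 1 / 2))) (uIcc 0 1) :=
      ContinuousOn.div (by fun_prop) (by fun_prop) (fun x hx => (hcos x hx).ne')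
    fun_prop
  have hint := intervalIntegral.integral_eq_sub_of_hasDerivAt hder hcont.intervalIntegrable
  rw [h0, h1] at hint
  simp only [ne_eq, OfNat.ofNat_ne_zero, not_false_eq_true, zero_pow, zero_mul, sub_zero] at hint
  have key : ∫ x in (0:ℝ)..1, (m x ^ 2 - ω ^ 2 * M x ^ 2) =
      ∫ x in (0:ℝ)..1, (m x + M x * (ω * (Real.sin (ω * (x - 1 / 2)) / Real.cos (ω * (x - 1 / 2))))) ^ 2 := by
    have hsq : ContinuousOn (fun x => (m x + M x * (ω * (Real.sin (ω * (x - 1 / 2)) / Real.cos (ω * (x - 1 / 2))))) ^ 2) (uIcc 0 1) := by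
      have hq : ContinuousOn (fun x => Real.sin (ω * (x - 1 / 2)) / Real.cos (ω * (x - 1 / 2))) (uIcc 0 1) :=
        ContinuousOn.div (by fun_prop) (by fun_prop) (fun x hx => (hcos x hx).ne')
      fun_prop
    have k1 := intervalIntegral.integral_sub (μ := volume) hsq.intervalIntegrable hcont.intervalIntegrable
    rw [hint, sub_zero] at k1
    rw [← k1]
    congr 1; ext x
    ring
  have hnn : 0 ≤ ∫ x in (0:ℝ)..1, (m x + M x * (ω * (Real.sin (ω * (x - 1 / 2)) / Real.cos (ω * (x - 1 / 2))))) ^ 2 :=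
    intervalIntegral.integral_nonneg (by norm_num) (fun x _ => sq_nonneg _)
  rw [← key, ii_sub (by fun_prop) (by fun_prop), intervalIntegral.integral_const_mul] at hnn
  linarith

/-- Dirichlet Wirtinger inequality -/
theorem wirt {M m : ℝ → ℝ} (hM : ∀ x, HasDerivAt M (m x) x) (hm : Continuous m)
    (h0 : M 0 = 0) (h1 : M 1 = 0) :
    Real.pi ^ 2 * ∫ x in (0:ℝ)..1, M x ^ 2 ≤ ∫ x in (0:ℝ)..1, m x ^ 2 := by
  have ht : Filter.Tendsto (fun ω : ℝ => ω ^ 2 * ∫ x in (0:ℝ)..1, M x ^ 2) (nhdsWithin Real.pi (Iio Real.pi))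
      (nhds (Real.pi ^ 2 * ∫ x in (0:ℝ)..1, M x ^ 2)) := by
    have : Continuous (fun ω : ℝ => ω ^ 2 * ∫ x in (0:ℝ)..1, M x ^ 2) := by fun_prop
    exact this.continuousAt.tendsto.mono_left nhdsWithin_le_nhds
  refine le_of_tendsto ht ?_
  filter_upwards [Ioo_mem_nhdsLT Real.pi_pos] with ω hω
  exact wirt_lt hM hm h0 h1 hω.1 hω.2

/-- Neumann form: mean zero functions -/
theorem wirt_mean {f f' : ℝ → ℝ} (hf : ∀ x, HasDerivAt f (f' x) x) (hf' : Continuous f')
    (h0 : ∫ x in (0:ℝ)..1, f x = 0) :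
    Real.pi ^ 2 * ∫ x in (0:ℝ)..1, f x ^ 2 ≤ ∫ x in (0:ℝ)..1, f' x ^ 2 := by
  have hfc : Continuous f := continuous_iff_continuousAt.2 fun x => (hf x).continuousAt
  set M : ℝ → ℝ := fun x => ∫ s in (0:ℝ)..x, f s with hMdef
  have hM : ∀ x, HasDerivAt M (f x) x := fun x =>
    intervalIntegral.integral_hasDerivAt_right (hfc.intervalIntegrable _ _)
      (hfc.stronglyMeasurableAtFilter _ _) hfc.continuousAt
  have hMc : Continuous M := continuous_iff_continuousAt.2 fun x => (hM x).continuousAt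
  have hM0 : M 0 = 0 := by simp [hMdef]
  have hM1 : M 1 = 0 := h0
  have hw := wirt hM hfc hM0 hM1
  have hparts : ∫ x in (0:ℝ)..1, (f' x * M x + f x * f x) = 0 := by
    have hd : ∀ x ∈ uIcc (0:ℝ) 1, HasDerivAt (fun x => f x * M x) (f' x * M x + f x * f x) x :=
      fun x _ => (hf x).mul (hM x)
    rw [intervalIntegral.integral_eq_sub_of_hasDerivAt hd
      ((by fun_prop : Continuous fun x => f' x * M x + f x * f x).intervalIntegrable _ _), hM0, hM1]
    ring
  rw [ii_add (by fun_prop) (by fun_prop)] at hparts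
  have hnn : 0 ≤ ∫ x in (0:ℝ)..1, (f' x + Real.pi ^ 2 * M x) ^ 2 :=
    intervalIntegral.integral_nonneg (by norm_num) (fun x _ => sq_nonneg _)
  have hexp : ∫ x in (0:ℝ)..1, (f' x + Real.pi ^ 2 * M x) ^ 2
      = (∫ x in (0:ℝ)..1, f' x ^ 2) + 2 * Real.pi ^ 2 * (∫ x in (0:ℝ)..1, f' x * M x)
        + Real.pi ^ 4 * ∫ x in (0:ℝ)..1, M x ^ 2 := by
    rw [← intervalIntegral.integral_const_mul, ← intervalIntegral.integral_const_mul,
      ← ii_add (by fun_prop) (by fun_prop), ← ii_add (by fun_prop) (by fun_prop)]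
    congr 1; ext x; ring
  have hff : ∫ x in (0:ℝ)..1, f x * f x = ∫ x in (0:ℝ)..1, f x ^ 2 := by
    congr 1; ext x; ring
  rw [hexp] at hnn
  rw [hff] at hparts
  have hpi : 0 < Real.pi ^ 2 := by positivity
  have hw2 := mul_le_mul_of_nonneg_left hw hpi.le
  nlinarith [hw2, hnn, hparts]

theorem dswap {F : ℝ → ℝ → ℝ} (hF : Continuous (Function.uncurry F)) (a b c d : ℝ) :
    ∫ x in a..b, ∫ y in c..d, F x y = ∫ y in c..d, ∫ x in a..b, F x y := by
  apply MeasureTheory.intervalIntegral_intervalIntegral_swap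
  have : IntegrableOn (Function.uncurry F) (uIcc a b ×ˢ uIcc c d) (volume.prod volume) := by
    rw [← Measure.volume_eq_prod]
    exact hF.continuousOn.integrableOn_compact (isCompact_uIcc.prod isCompact_uIcc)
  exact this.mono_set (prod_mono uIoc_subset_uIcc uIoc_subset_uIcc)

/-- Neumann-Poincare inequality on the unit square, iterated integral form -/
theorem sq_poincare {F Fx Fy : ℝ → ℝ → ℝ} (hF : Continuous (Function.uncurry F))
    (hFx : Continuous (Function.uncurry Fx)) (hFy : Continuous (Function.uncurry Fy))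
    (hx : ∀ x y, HasDerivAt (fun x => F x y) (Fx x y) x)
    (hy : ∀ x y, HasDerivAt (fun y => F x y) (Fy x y) y)
    (h0 : ∫ x in (0:ℝ)..1, ∫ y in (0:ℝ)..1, F x y = 0) :
    Real.pi ^ 2 * ∫ x in (0:ℝ)..1, ∫ y in (0:ℝ)..1, F x y ^ 2 ≤
      (∫ x in (0:ℝ)..1, ∫ y in (0:ℝ)..1, Fx x y ^ 2) + ∫ x in (0:ℝ)..1, ∫ y in (0:ℝ)..1, Fy x y ^ 2 := by
  have hF' : Continuous fun z : ℝ × ℝ => F z.1 z.2 := hF
  have hFx' : Continuous fun z : ℝ × ℝ => Fx z.1 z.2 := hFx
  have hFy' : Continuous fun z : ℝ × ℝ => Fy z.1 z.2 := hFy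
  have c1 : ∀ u : ℝ, Continuous fun v => F u v := fun u => hF'.comp (by fun_prop : Continuous fun v : ℝ => (u, v))
  have c2 : ∀ u : ℝ, Continuous fun v => Fy u v := fun u => hFy'.comp (by fun_prop : Continuous fun v : ℝ => (u, v))
  have c3 : ∀ v : ℝ, Continuous fun u => F u v := fun u => hF'.comp (by fun_prop : Continuous fun v : ℝ => (v, u))
  have c4 : ∀ v : ℝ, Continuous fun u => Fx u v := fun u => hFx'.comp (by fun_prop : Continuous fun v : ℝ => (v, u))
  obtain ⟨m, hm⟩ : ∃ m : ℝ → ℝ, m = fun x => ∫ y in (0:ℝ)..1, F x y := ⟨_, rfl⟩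
  have hmx : ∀ x, m x = ∫ y in (0:ℝ)..1, F x y := fun x => by rw [hm]
  have hmc : Continuous m := by
    rw [hm]
    exact intervalIntegral.continuous_parametric_intervalIntegral_of_continuous' hF _ _
  obtain ⟨M, hMdef⟩ : ∃ M : ℝ → ℝ, M = fun x => ∫ s in (0:ℝ)..x, m s := ⟨_, rfl⟩
  have hM : ∀ x, HasDerivAt M (m x) x := fun x => by
    rw [hMdef]
    exact intervalIntegral.integral_hasDerivAt_right (hmc.intervalIntegrable _ _)
      (hmc.stronglyMeasurableAtFilter _ _) hmc.continuousAt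
  have hMc : Continuous M := continuous_iff_continuousAt.2 fun x => (hM x).continuousAt
  have hM0 : M 0 = 0 := by simp [hMdef]
  have hM1 : M 1 = 0 := by
    rw [hMdef]; simp only [hmx]; exact h0
  have hw := wirt hM hmc hM0 hM1
  have hpi : 0 < Real.pi ^ 2 := by positivity
  -- (a)
  have ha : ∀ x, Real.pi ^ 2 * ((∫ y in (0:ℝ)..1, F x y ^ 2) - m x ^ 2) ≤ ∫ y in (0:ℝ)..1, Fy x y ^ 2 := by
    intro x
    have h1 := wirt_mean (f := fun y => F x y - m x) (f' := fun y => Fy x y)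
      (fun y => (hy x y).sub_const _) (c2 x) (by
        rw [ii_sub (c1 x) continuous_const, ← hmx x]; simp)
    have h2 : ∫ y in (0:ℝ)..1, (F x y - m x) ^ 2 = (∫ y in (0:ℝ)..1, F x y ^ 2) - m x ^ 2 := by
      have e : ∀ y, (F x y - m x) ^ 2 = F x y ^ 2 - (2 * m x * F x y - m x ^ 2) := fun y => by ring
      have hc := c1 x
      simp_rw [e]
      rw [ii_sub (by fun_prop) (by fun_prop), ii_sub (by fun_prop) (by fun_prop),
        intervalIntegral.integral_const_mul, ← hmx x]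
      simp; ring
    rw [h2] at h1
    exact h1
  have hF2 : Continuous (Function.uncurry fun x y => F x y ^ 2) := by
    unfold Function.uncurry; simp only; fun_prop
  have hFx2 : Continuous (Function.uncurry fun x y => Fx x y ^ 2) := by
    unfold Function.uncurry; simp only; fun_prop
  have hFy2 : Continuous (Function.uncurry fun x y => Fy x y ^ 2) := by
    unfold Function.uncurry; simp only; fun_prop
  have i1 : Continuous fun x => ∫ y in (0:ℝ)..1, F x y ^ 2 :=
    intervalIntegral.continuous_parametric_intervalIntegral_of_continuous' hF2 _ _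
  have i2 : Continuous fun x => ∫ y in (0:ℝ)..1, Fy x y ^ 2 :=
    intervalIntegral.continuous_parametric_intervalIntegral_of_continuous' hFy2 _ _
  have hA := ii_mono (f := fun x => Real.pi ^ 2 * ((∫ y in (0:ℝ)..1, F x y ^ 2) - m x ^ 2))
    (g := fun x => ∫ y in (0:ℝ)..1, Fy x y ^ 2) (by fun_prop) i2 zero_le_one (fun x _ => ha x)
  rw [intervalIntegral.integral_const_mul, ii_sub i1 (by fun_prop)] at hA
  -- (c)
  have hFxM : Continuous (Function.uncurry fun x y => Fx x y * M x) := by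
    unfold Function.uncurry; simp only; fun_prop
  have hFm : Continuous (Function.uncurry fun x y => F x y * m x) := by
    unfold Function.uncurry; simp only; fun_prop
  have hc : ∀ y, (∫ x in (0:ℝ)..1, Fx x y * M x) + (∫ x in (0:ℝ)..1, F x y * m x) = 0 := by
    intro y
    have k3 := c3 y
    have k4 := c4 y
    rw [← ii_add (by fun_prop) (by fun_prop)]
    have hd : ∀ x ∈ uIcc (0:ℝ) 1, HasDerivAt (fun x => F x y * M x) (Fx x y * M x + F x y * m x) x :=
      fun x _ => (hx x y).mul (hM x)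
    rw [intervalIntegral.integral_eq_sub_of_hasDerivAt hd
      ((by fun_prop : Continuous fun x => Fx x y * M x + F x y * m x).intervalIntegrable _ _), hM0, hM1]
    ring
  have hc2 : (∫ x in (0:ℝ)..1, ∫ y in (0:ℝ)..1, Fx x y * M x) + (∫ x in (0:ℝ)..1, m x ^ 2) = 0 := by
    have e1 : ∫ x in (0:ℝ)..1, m x ^ 2 = ∫ x in (0:ℝ)..1, ∫ y in (0:ℝ)..1, F x y * m x := by
      congr 1; ext x
      rw [intervalIntegral.integral_mul_const, ← hmx x]; ring
    rw [e1, dswap hFxM, dswap hFm]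
    have j1 : Continuous fun y => ∫ x in (0:ℝ)..1, Fx x y * M x :=
      intervalIntegral.continuous_parametric_intervalIntegral_of_continuous'
        (by unfold Function.uncurry at hFxM ⊢; simp only at hFxM ⊢; exact hFxM.comp continuous_swap) _ _
    have j2 : Continuous fun y => ∫ x in (0:ℝ)..1, F x y * m x :=
      intervalIntegral.continuous_parametric_intervalIntegral_of_continuous'
        (by unfold Function.uncurry at hFm ⊢; simp only at hFm ⊢; exact hFm.comp continuous_swap) _ _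
    rw [← ii_add j1 j2]
    simp_rw [hc]
    simp
  -- (d)
  have hd : 0 ≤ (∫ x in (0:ℝ)..1, ∫ y in (0:ℝ)..1, Fx x y ^ 2)
      + 2 * Real.pi ^ 2 * (∫ x in (0:ℝ)..1, ∫ y in (0:ℝ)..1, Fx x y * M x)
      + Real.pi ^ 4 * ∫ x in (0:ℝ)..1, M x ^ 2 := by
    have hnn : 0 ≤ ∫ x in (0:ℝ)..1, ∫ y in (0:ℝ)..1, (Fx x y + Real.pi ^ 2 * M x) ^ 2 :=
      intervalIntegral.integral_nonneg (by norm_num) (fun x _ =>
        intervalIntegral.integral_nonneg (by norm_num) (fun y _ => sq_nonneg _))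
    have hexp : ∫ x in (0:ℝ)..1, ∫ y in (0:ℝ)..1, (Fx x y + Real.pi ^ 2 * M x) ^ 2
        = ∫ x in (0:ℝ)..1, ((∫ y in (0:ℝ)..1, Fx x y ^ 2)
          + 2 * Real.pi ^ 2 * (∫ y in (0:ℝ)..1, Fx x y * M x) + Real.pi ^ 4 * M x ^ 2) := by
      congr 1; ext x
      have k5 : Continuous fun y => Fx x y := hFx'.comp (by fun_prop : Continuous fun v : ℝ => (x, v))
      have e2 : ∫ y in (0:ℝ)..1, Real.pi ^ 4 * M x ^ 2 = Real.pi ^ 4 * M x ^ 2 := by simp
      have e3 : ∫ y in (0:ℝ)..1, (Fx x y + Real.pi ^ 2 * M x) ^ 2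
          = ∫ y in (0:ℝ)..1, ((Fx x y ^ 2 + 2 * Real.pi ^ 2 * (Fx x y * M x)) + Real.pi ^ 4 * M x ^ 2) := by
        congr 1; ext y; ring
      rw [e3, ii_add (by fun_prop) (by fun_prop), ii_add (by fun_prop) (by fun_prop),
        intervalIntegral.integral_const_mul, e2]
    have j3 : Continuous fun x => ∫ y in (0:ℝ)..1, Fx x y ^ 2 :=
      intervalIntegral.continuous_parametric_intervalIntegral_of_continuous' hFx2 _ _
    have j4 : Continuous fun x => ∫ y in (0:ℝ)..1, Fx x y * M x :=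
      intervalIntegral.continuous_parametric_intervalIntegral_of_continuous' hFxM _ _
    rw [hexp, ii_add (by fun_prop) (by fun_prop), ii_add (by fun_prop) (by fun_prop),
      intervalIntegral.integral_const_mul, intervalIntegral.integral_const_mul] at hnn
    exact hnn
  have hw2 := mul_le_mul_of_nonneg_left hw hpi.le
  have hc3 : (∫ x in (0:ℝ)..1, ∫ y in (0:ℝ)..1, Fx x y * M x) = - ∫ x in (0:ℝ)..1, m x ^ 2 := by linarith
  rw [hc3] at hd
  generalize (∫ x in (0:ℝ)..1, m x ^ 2) = K at *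
  generalize (∫ x in (0:ℝ)..1, M x ^ 2) = C at *
  generalize (∫ x in (0:ℝ)..1, ∫ y in (0:ℝ)..1, Fx x y ^ 2) = A at *
  generalize (∫ x in (0:ℝ)..1, ∫ y in (0:ℝ)..1, Fy x y ^ 2) = B at *
  generalize (∫ x in (0:ℝ)..1, ∫ y in (0:ℝ)..1, F x y ^ 2) = D at *
  linarith

end Pool.Agent.Q170.F3
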